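import Mathlib
import Pool.Agent.Lib.P66ba75.Defs
import Pool.Agent.Lib.P66ba75.Main

namespace Pool.Agent.Results.MP_66ba75_co.OptimalParts

open Pool.Agent.Lib.P66ba75

/-- **Full answer to Q1.**  Let `k ≥ 2`, and let `ζ` be the largest zero of the Hermite polynomial
`He_{2k-1}`.  For every sufficiently large `n`, let `ρ` be the largest real zero of the Krawtchouk
polynomial `K_{2k-1}(·; n-1)`.  Then `ρ = (n - 1 + ζ √n)/2 + O(1/√n)`, and `a ∈ {0,…,n}` maximises
the number of edges iff `a` or `n - a` is one of `⌊ρ⌋ + 1` and (if `ρ` is an integer) `ρ`. -/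
theorem result (k : ℕ) (hk : 2 ≤ k) :
    ∃ ζ : ℝ, IsGreatest {u : ℝ | Polynomial.aeval u (Polynomial.hermite (2 * k - 1)) = 0} ζ ∧
      0 < ζ ∧
      ∃ (n₀ : ℕ) (C : ℝ), ∀ n : ℕ, n₀ ≤ n → ∃ ρ : ℝ,
        IsGreatest {x : ℝ | kraw (2 * k - 1) (n - 1) x = 0} ρ ∧
        |ρ - ((n : ℝ) - 1 + ζ * √(n : ℝ)) / 2| ≤ C / √(n : ℝ) ∧
        ∀ a : ℕ, a ≤ n →
          ((∀ b : ℕ, b ≤ n → edges k n b ≤ edges k n a) ↔
            ((a : ℤ) = ⌊ρ⌋ + 1 ∨ (a : ℝ) = ρ ∨ (n : ℤ) - a = ⌊ρ⌋ + 1 ∨ (n : ℝ) - a = ρ)) := by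
  obtain ⟨ζ, hζ0, hζ, hpos, hpos', hζpos⟩ := largest (2 * k - 2)
  have e1 : 2 * k - 2 + 1 = 2 * k - 1 := by omega
  have e2 : 2 * k - 2 + 2 = 2 * k := by omega
  have hζp : 0 < ζ := hζpos (by omega)
  refine ⟨ζ, ?_, hζp, ?_⟩
  · constructor
    · show Polynomial.aeval ζ (Polynomial.hermite (2 * k - 1)) = 0
      rw [hermite_eq, ← e1, hζ, mul_zero]
    · intro u hu
      have hu' : Polynomial.aeval u (Polynomial.hermite (2 * k - 1)) = 0 := hu
      by_contra hcon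
      push Not at hcon
      have h1 := hpos u hcon
      rw [hermite_eq, ← e1] at hu'
      have h2 : (0 : ℝ) < ((2 * k - 2 + 1).factorial : ℝ) := by positivity
      have h3 := mul_pos h2 h1
      rw [hu'] at h3
      exact lt_irrefl _ h3
  · have hm : Even (2 * k - 2) := ⟨k - 1, by omega⟩
    obtain ⟨n₀, C, h⟩ := core (2 * k - 2) hm (by omega) ζ hζp hζ hpos hpos'
    rw [e1, e2] at h
    refine ⟨n₀, C, fun n hn => ?_⟩
    obtain ⟨ρ, h1, h2, h3⟩ := h n hn
    refine ⟨ρ, h1, h2, fun a ha => ?_⟩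
    rw [← h3 a ha]
    constructor
    · intro hmax b hb
      have h4 := edges_eq k n a ha
      have h5 := edges_eq k n b hb
      have h6 : (edges k n b : ℝ) ≤ edges k n a := by exact_mod_cast hmax b hb
      linarith
    · intro hmin b hb
      have h4 := edges_eq k n a ha
      have h5 := edges_eq k n b hb
      have h6 := hmin b hb
      have h7 : (edges k n b : ℝ) ≤ edges k n a := by linarith
      exact_mod_cast h7

end Pool.Agent.Results.MP_66ba75_co.OptimalParts
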